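import Pool.Agent.Q16.XP.Main
import Pool.Agent.Q252.XP_P1
import Pool.Agent.Q158.XP_PA
import Pool.Agent.Q123.XP_D1
import Pool.Agent.Q208.XP_B1
import Pool.Agent.Q121.XP_B2
import Pool.Agent.Q223.XP_B3
set_option autoImplicit false

namespace Q16.XP

theorem j_PA : S_PA := Pool.Agent.Q158.XP_PA.t_PA Pool.Agent.Q252.XP_P1.t_P1
theorem j_D1 : S_D1 := Pool.Agent.Q123.XP_D1.t_D1
theorem j_B1 : S_B1 := Pool.Agent.Q208.XP_B1.t_B1 j_D1
theorem j_B2 : S_B2 := Pool.Agent.Q121.XP_B2.t_B2 j_D1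
theorem j_B3 : S_B3 := Pool.Agent.Q223.XP.t_B3

end Q16.XP
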