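import Mathlib
set_option autoImplicit false

namespace Q16.XP

/-- the exponent of the smallest prime factor -/
def ex (n : ℕ) : ℕ := n.factorization n.minFac

/-- n without its smallest prime factor -/
def rs (n : ℕ) : ℕ := n / n.minFac ^ ex n

/-- sum over the pairs of consecutive distinct prime factors, with fuel -/
def PSf (F : ℕ → ℕ → ℕ → ℕ → ℕ) : ℕ → ℕ → ℕ
  | 0, _ => 0
  | k + 1, n => if rs n ≤ 1 then 0 else F n.minFac (ex n) (rs n).minFac (ex (rs n)) + PSf F k (rs n)

/-- sum over the pairs of consecutive distinct prime factors of n -/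
def PS (F : ℕ → ℕ → ℕ → ℕ → ℕ) (n : ℕ) : ℕ := PSf F n n

/-- the largest prime factor -/
def tp (n : ℕ) : ℕ := n.primeFactors.sup id

/-- every prime factor of b is smaller than every prime factor of a -/
def Sep (b a : ℕ) : Prop := ∀ p q : ℕ, p.Prime → q.Prime → p ∣ b → q ∣ a → p < q

/-- JOB P1. Additivity (strong induction on b, peel the smallest prime factor of b). -/
def S_P1 : Prop := ∀ (F : ℕ → ℕ → ℕ → ℕ → ℕ) (b a : ℕ), 1 < b → 1 < a → Sep b a →
  PS F (b * a) = PS F b + F (tp b) (b.factorization (tp b)) a.minFac (ex a) + PS F a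

def F1 (p e _q f : ℕ) : ℕ := f.factorization p / e
def F2 (_p e q f : ℕ) : ℕ := e.factorization q / f

/-- JOB PA (from S_P1): a^b has the prime factors of a, exponents times b; (v_p f + e) / e = v_p f / e + 1 with e = v_p b, p = tp b. -/
def S_PA : Prop := (∀ a b : ℕ, 1 < a → 1 < b → Sep b a →
    PS F1 (a ^ b * b) + PS F1 a = PS F1 (a * b) + PS F1 (a ^ b) + 1) ∧
  (∀ a b : ℕ, 1 < a → 1 < b → Sep a b →
    PS F2 (a ^ b * b) + PS F2 a = PS F2 (a * b) + PS F2 (a ^ b) + 1)

/-- last nonzero digit of n in base p -/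
def dg (p n : ℕ) : ℕ := n / p ^ n.factorization p % p

/-- n without its last nonzero digit in base p -/
def rd (p n : ℕ) : ℕ := n - dg p n * p ^ n.factorization p

def DSf (p : ℕ) (G : ℕ → ℕ → ℕ → ℕ) : ℕ → ℕ → ℕ
  | 0, _ => 0
  | k + 1, n => if rd p n = 0 then 0 else
      G (n.factorization p) (dg p n) ((rd p n).factorization p) + DSf p G k (rd p n)

/-- sum over the pairs of consecutive nonzero digits of n in base p: G (position) (digit) (next position) -/
def DS (p : ℕ) (G : ℕ → ℕ → ℕ → ℕ) (n : ℕ) : ℕ := DSf p G n n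

/-- JOB D1. Additivity in base p (strong induction on x, peel the last nonzero digit of x). -/
def S_D1 : Prop := ∀ (p : ℕ), p.Prime → ∀ (G : ℕ → ℕ → ℕ → ℕ) (x y k : ℕ), 0 < x → 0 < y → p ^ k ∣ y → x < p ^ k →
  DS p G (x + y) = DS p G x + G (Nat.log p x) (x / p ^ Nat.log p x) (y.factorization p) + DS p G y

def G1 (p l d q : ℕ) : ℕ := q / (d * p ^ l)
def G2 (p l _d q : ℕ) : ℕ := if p ^ (l + 2) ≤ q then 1 else 0

/-- first digit colouring -/
def c1 (n : ℕ) : ℕ := DS n.minFac (G1 n.minFac) (ex n) % 3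
def c2 (n : ℕ) : ℕ := DS n.minFac (G2 n.minFac) (ex n) % 2
def c3 (n : ℕ) : ℕ := Nat.log 2 (dg n.minFac (ex n)) % 2
def c4 (n : ℕ) : ℕ := Nat.log 2 (n.minFac - dg n.minFac (ex n)) % 2
def c5 (n : ℕ) : ℕ := (ex n).factorization n.minFac % 2

/-- JOB B1 (from S_D1). With al = ex a, be = ex b: ex (a b) = al + be, ex (a^b) = b al, ex (a^b b) = b al + be, all with the smallest prime
factor p; the p-exponent of b al is be + (p-exponent of al); d p^l <= be < 2 d p^l for l = log_p be, d = be / p^l, so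
(q + be) / (d p^l) is q / (d p^l) + 1 or + 2. -/
def S_B1 : Prop := ∀ (p a b : ℕ), p.Prime → 1 < a → 1 < b → a.minFac = p → b.minFac = p →
  ex b < p ^ (ex a).factorization p →
  ¬ (c1 (a * b) = c1 a ∧ c1 (a ^ b) = c1 a ∧ c1 (a ^ b * b) = c1 a)

/-- JOB B2 (from S_D1). Same notation; DS (al + be) = DS al + 1 + DS be and DS (b al + be) = DS be + 0 + DS (b al). -/
def S_B2 : Prop := ∀ (p a b : ℕ), p.Prime → 1 < a → 1 < b → a.minFac = p → b.minFac = p →
  p ^ (Nat.log p (ex a) + 2) ≤ (ex b).factorization p →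
  ¬ (c2 b = c2 a ∧ c2 (a * b) = c2 a ∧ c2 (a ^ b) = c2 a ∧ c2 (a ^ b * b) = c2 a)

/-- JOB B3. p odd: the last nonzero digit d of al + be is 2 d mod p; if 2 d < p then log_2 d grows by one, otherwise
p - (2 d - p) = 2 (p - d). p = 2: the exponent grows by exactly one (al / 2^t = be / 2^t mod 4, odd). -/
def S_B3 : Prop := ∀ (p a b : ℕ), p.Prime → 1 < a → 1 < b → a.minFac = p → b.minFac = p →
  (ex a).factorization p = (ex b).factorization p →
  ex a / p ^ (ex a).factorization p % p ^ 2 = ex b / p ^ (ex b).factorization p % p ^ 2 →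
  ¬ (c3 (a * b) = c3 a ∧ c4 (a * b) = c4 a ∧ c5 (a * b) = c5 a)

end Q16.XP
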