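import Mathlib
import Pool.Agent.Q16.XP.Stm
import Pool.Agent.Q208.XP_B1
set_option autoImplicit false

namespace Q16.XP

/-- number of steps from n to 0 under the p-exponent -/
def dep (p n : ℕ) : ℕ := if n = 0 then 0 else 1 + dep p (n.factorization p)
termination_by n
decreasing_by exact Nat.factorization_lt _ (by assumption)

theorem dep_pos {p n : ℕ} (h : n ≠ 0) : dep p n = 1 + dep p (n.factorization p) := by
  rw [dep, if_neg h]

/-- the p-exponent of the p-exponent, p the smallest prime factor -/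
def T2 (n : ℕ) : ℕ := (ex n).factorization n.minFac

def c8 (n : ℕ) : ℕ := dep n.minFac ((T2 n).factorization n.minFac) % 2
def c9 (n : ℕ) : ℕ := if T2 n = 0 then 1 else 0
def c10 (n : ℕ) : ℕ := DS n.minFac (G2 n.minFac) (T2 n) % 2

theorem fac_add {p m n : ℕ} (hp : p.Prime) (hm : m ≠ 0) (hn : n ≠ 0)
    (h : m.factorization p < n.factorization p) : (m + n).factorization p = m.factorization p := by
  have hmn : m + n ≠ 0 := by omega
  apply le_antisymm
  · by_contra hcon
    push Not at hcon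
    have h3 : p ^ (m.factorization p + 1) ∣ m + n := dvd_trans (pow_dvd_pow p (by omega)) (Nat.ordProj_dvd _ _)
    have h4 : p ^ (m.factorization p + 1) ∣ n := dvd_trans (pow_dvd_pow p (by omega)) (Nat.ordProj_dvd _ _)
    have h6 := (hp.pow_dvd_iff_le_factorization hm).1 ((Nat.dvd_add_left h4).1 h3)
    omega
  · apply (hp.pow_dvd_iff_le_factorization hmn).1
    exact Nat.dvd_add (Nat.ordProj_dvd _ _) (dvd_trans (pow_dvd_pow p h.le) (Nat.ordProj_dvd _ _))

structure Fc (p a b : ℕ) : Prop where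
  pow : (a ^ b).minFac = p
  mul : (a ^ b * b).minFac = p
  x2 : ex (a ^ b) = b * ex a
  x3 : ex (a ^ b * b) = ex b + b * ex a
  pa : 0 < ex a
  pb : 0 < ex b
  hv : (b * ex a).factorization p = ex b + (ex a).factorization p

theorem facts {p a b : ℕ} (hp : p.Prime) (h1 : 1 < a) (h2 : 1 < b) (ha : a.minFac = p) (hb : b.minFac = p) :
    Fc p a b := by
  have ha0 : a ≠ 0 := by omega
  have hb0 : b ≠ 0 := by omega
  have hexa : ex a = a.factorization p := by unfold ex; rw [ha]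
  have hexb : ex b = b.factorization p := by unfold ex; rw [hb]
  have h1' : 1 < a ^ b := Nat.one_lt_pow hb0 h1
  have hpow : (a ^ b).minFac = p := by rw [Nat.pow_minFac hb0, ha]
  have habb : (a ^ b * b).minFac = p := Pool.Agent.Q208.XP_B1.mf_mul hp hpow hb h1'
  have pa : 0 < ex a := by
    rw [hexa]
    exact hp.factorization_pos_of_dvd ha0 (ha ▸ Nat.minFac_dvd a)
  refine ⟨hpow, habb, ?_, ?_, pa, ?_, ?_⟩
  · rw [hexa]
    unfold ex
    rw [hpow, Nat.factorization_pow, Finsupp.smul_apply, smul_eq_mul]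
  · rw [hexa, hexb]
    unfold ex
    rw [habb, Nat.factorization_mul (by omega) hb0, Finsupp.add_apply, Nat.factorization_pow,
      Finsupp.smul_apply, smul_eq_mul, add_comm]
  · rw [hexb]
    exact hp.factorization_pos_of_dvd hb0 (hb ▸ Nat.minFac_dvd b)
  · rw [Nat.factorization_mul hb0 (by omega), Finsupp.add_apply, hexb]

theorem nine {p a b : ℕ} (hp : p.Prime) (h1 : 1 < a) (h2 : 1 < b) (ha : a.minFac = p) (hb : b.minFac = p)
    (h : T2 a = 0 ∨ T2 b ≤ (T2 a).factorization p) (e1 : c8 b = c8 a) (e2 : c8 (a ^ b) = c8 a)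
    (e3 : c9 b = c9 a) (e4 : c9 (a ^ b) = c9 a) : False := by
  have F := facts hp h1 h2 ha hb
  have t1 : T2 (a ^ b) = ex b + T2 a := by
    unfold T2
    rw [F.pow, F.x2, F.hv, ha]
  have z1 : c9 (a ^ b) = 0 := by
    unfold c9
    rw [if_neg]
    have := F.pb
    omega
  have z2 : T2 a ≠ 0 := by
    intro h0
    have : c9 a = 1 := by unfold c9; rw [if_pos h0]
    omega
  have z3 : T2 b ≠ 0 := by
    intro h0
    have : c9 b = 1 := by unfold c9; rw [if_pos h0]
    omega
  have h : T2 b ≤ (T2 a).factorization p := h.resolve_left z2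
  have hd := dep_pos (p := p) z3
  unfold c8 at e1 e2
  rw [F.pow, t1, ha] at e2
  rw [ha, hb] at e1
  have hTb : (ex b).factorization p = T2 b := by unfold T2; rw [hb]
  rcases h.eq_or_lt with h0 | h0
  · rw [← h0] at e1
    omega
  · have h3 := fac_add hp F.pb.ne' z2 (by rw [hTb]; exact h0)
    rw [h3, hTb] at e2
    omega

theorem ten (hD : S_D1) (hB1 : S_B1) {p a b : ℕ} (hp : p.Prime) (h1 : 1 < a) (h2 : 1 < b) (ha : a.minFac = p)
    (hb : b.minFac = p) (h0 : T2 a ≠ 0) (h : p ^ (Nat.log p (T2 a) + 2) ≤ T2 b)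
    (m1 : c1 (a * b) = c1 a) (m2 : c1 (a ^ b) = c1 a) (m3 : c1 (a ^ b * b) = c1 a)
    (n1 : c2 b = c2 a) (n2 : c2 (a ^ b) = c2 a) (n3 : c2 (a ^ b * b) = c2 a)
    (l1 : c10 (a ^ b) = c10 a) : False := by
  have F := facts hp h1 h2 ha hb
  have hTa : (ex a).factorization p = T2 a := by unfold T2; rw [ha]
  have hTb : (ex b).factorization p = T2 b := by unfold T2; rw [hb]
  have t1 : T2 (a ^ b) = ex b + T2 a := by
    unfold T2
    rw [F.pow, F.x2, F.hv, ha]
  by_cases hlt : ex b < p ^ T2 a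
  · exact hB1 p a b hp h1 h2 ha hb (by rw [hTa]; exact hlt) ⟨m1, m2, m3⟩
  push Not at hlt
  have hx1 : T2 a < p ^ (Nat.log p (T2 a) + 1) := Nat.lt_pow_succ_log_self hp.one_lt _
  have hx2 : p ^ (Nat.log p (T2 a) + 1) ≤ p ^ (Nat.log p (T2 a) + 2) := Nat.pow_le_pow_right hp.pos (by omega)
  have hx3 : T2 b < p ^ T2 b := Nat.lt_pow_self hp.one_lt
  have y1 := hD p hp (G2 p) (T2 a) (ex b) (T2 b) (by omega) F.pb (by rw [← hTb]; exact Nat.ordProj_dvd _ _)
    (by omega)
  have g1 : G2 p (Nat.log p (T2 a)) (T2 a / p ^ Nat.log p (T2 a)) ((ex b).factorization p) = 1 := by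
    unfold G2
    rw [if_pos (by rw [hTb]; exact h)]
  rw [g1] at y1
  have y2 := hD p hp (G2 p) (ex b) (b * ex a) (ex b) F.pb (Nat.mul_pos (by omega) F.pa)
    (dvd_trans (pow_dvd_pow p (by rw [F.hv]; omega)) (Nat.ordProj_dvd (b * ex a) p)) (Nat.lt_pow_self hp.one_lt)
  have g2 : G2 p (Nat.log p (ex b)) (ex b / p ^ Nat.log p (ex b)) ((b * ex a).factorization p) = 0 := by
    unfold G2
    rw [if_neg]
    rw [F.hv, hTa]
    have k1 : ex b < p ^ (Nat.log p (ex b) + 1) := Nat.lt_pow_succ_log_self hp.one_lt _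
    have k2 : T2 a < p ^ T2 a := Nat.lt_pow_self hp.one_lt
    have k3 : p ^ (Nat.log p (ex b) + 2) = p * p ^ (Nat.log p (ex b) + 1) := by ring
    have k4 : 2 * p ^ (Nat.log p (ex b) + 1) ≤ p * p ^ (Nat.log p (ex b) + 1) :=
      Nat.mul_le_mul_right _ hp.two_le
    omega
  rw [g2] at y2
  unfold c10 at l1
  rw [F.pow, t1, ha, show ex b + T2 a = T2 a + ex b by ring, y1] at l1
  unfold c2 at n1 n2 n3
  rw [F.mul, F.x3, ha, y2] at n3
  rw [F.pow, F.x2, ha] at n2
  omega

end Q16.XP
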