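import Mathlib
set_option autoImplicit false

namespace Q16.XP

abbrev LL := ℕ ×ₗ ℕ

/-- value at two consecutive entries (exponent, prime) -/
def fl (x y : LL) : ℕ := (ofLex y).1.factorization (ofLex x).2 / (ofLex x).1

def CS : List LL → ℕ
  | [] => 0
  | [_] => 0
  | x :: y :: l => fl x y + CS (y :: l)

theorem CS_append : ∀ (l1 l2 : List LL) (h1 : l1 ≠ []) (h2 : l2 ≠ []),
    CS (l1 ++ l2) = CS l1 + fl (l1.getLast h1) (l2.head h2) + CS l2
  | [x], y :: l2, _, _ => by simp [CS]
  | x :: y :: l1, l2, _, h2 => by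
      have := CS_append (y :: l1) l2 (by simp) h2
      simp only [List.cons_append, CS] at this ⊢
      rw [this]
      simp only [List.getLast_cons_cons]
      ring
  | [], _, h1, _ => absurd rfl h1
  | _, [], _, h2 => absurd rfl h2

/-- pairs (exponent, prime) of n -/
def SS (n : ℕ) : Finset LL := n.primeFactors.image (fun p => toLex (n.factorization p, p))

def LS (n : ℕ) : List LL := (SS n).sort (· ≤ ·)

theorem sort_union_lt {S T : Finset LL} (h : ∀ x ∈ S, ∀ y ∈ T, x < y) :
    (S ∪ T).sort (· ≤ ·) = S.sort (· ≤ ·) ++ T.sort (· ≤ ·) := by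
  have hn : (S.sort (· ≤ ·) ++ T.sort (· ≤ ·)).Nodup := by
    rw [List.nodup_append]
    refine ⟨Finset.sort_nodup _ _, Finset.sort_nodup _ _, ?_⟩
    intro x hx y hy
    exact (h x ((Finset.mem_sort _).1 hx) y ((Finset.mem_sort _).1 hy)).ne
  have h1 := (List.toFinset_sort (r := (· ≤ ·)) hn).2 (by
    rw [List.pairwise_append]
    refine ⟨Finset.pairwise_sort _ _, Finset.pairwise_sort _ _, ?_⟩
    intro x hx y hy
    exact (h x ((Finset.mem_sort _).1 hx) y ((Finset.mem_sort _).1 hy)).le)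
  rw [← h1]
  congr 1
  ext x
  simp

/-- multiply the exponent by b -/
def gm (b : ℕ) (x : LL) : LL := toLex (b * (ofLex x).1, (ofLex x).2)

theorem gm_inj {b : ℕ} (hb : 0 < b) : Function.Injective (gm b) := by
  intro x y h
  have h1 := congrArg (fun z => (ofLex z).1) h
  have h2 := congrArg (fun z => (ofLex z).2) h
  simp only [gm, ofLex_toLex] at h1 h2
  apply ofLex.injective
  exact Prod.ext (Nat.eq_of_mul_eq_mul_left hb h1) h2

theorem gm_mono {b : ℕ} (hb : 0 < b) {x y : LL} (h : x ≤ y) : gm b x ≤ gm b y := by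
  rw [Prod.Lex.le_iff] at h
  unfold gm
  rw [Prod.Lex.toLex_le_toLex]
  rcases h with h | ⟨h1, h2⟩
  · exact Or.inl (Nat.mul_lt_mul_of_pos_left h hb)
  · exact Or.inr ⟨by simp only [h1], h2⟩

theorem LS_pow {a b : ℕ} (hb : 0 < b) : LS (a ^ b) = (LS a).map (gm b) := by
  have hS : SS (a ^ b) = (SS a).image (gm b) := by
    unfold SS
    rw [Finset.image_image, Nat.primeFactors_pow _ hb.ne']
    apply Finset.image_congr
    intro p _
    simp [gm, Nat.factorization_pow]
  have hn : ((LS a).map (gm b)).Nodup := (Finset.sort_nodup _ _).map (gm_inj hb)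
  have h1 := (List.toFinset_sort (r := (· ≤ ·)) hn).2 (by
    rw [List.pairwise_map]
    exact (Finset.pairwise_sort _ _).imp (fun h => gm_mono hb h))
  rw [← h1]
  unfold LS
  rw [hS]
  congr 1
  ext x
  simp

theorem LS_ne {a : ℕ} (ha : 1 < a) : LS a ≠ [] := by
  intro h
  have h1 : a.minFac ∈ a.primeFactors :=
    Nat.mem_primeFactors.2 ⟨Nat.minFac_prime (by omega), Nat.minFac_dvd a, by omega⟩
  have h2 : toLex (a.factorization a.minFac, a.minFac) ∈ LS a :=
    (Finset.mem_sort _).2 (Finset.mem_image.2 ⟨_, h1, rfl⟩)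
  rw [h] at h2
  simp at h2

theorem mem_LS {a : ℕ} {x : LL} (h : x ∈ LS a) :
    (ofLex x).2 ∈ a.primeFactors ∧ (ofLex x).1 = a.factorization (ofLex x).2 := by
  have h1 := (Finset.mem_sort _).1 h
  obtain ⟨p, hp, rfl⟩ := Finset.mem_image.1 h1
  exact ⟨hp, rfl⟩

/-- exponents of b below the exponents of a, a and b coprime -/
theorem LS_mul {a b : ℕ} (ha : 1 < a) (hb : 1 < b) (hc : a.Coprime b)
    (h : ∀ p q : ℕ, p.Prime → q.Prime → p ∣ b → q ∣ a → b.factorization p < a.factorization q) :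
    LS (a * b) = LS b ++ LS a := by
  have ha0 : a ≠ 0 := by omega
  have hb0 : b ≠ 0 := by omega
  have hS : SS (a * b) = SS b ∪ SS a := by
    unfold SS
    rw [hc.primeFactors_mul, Finset.image_union, Finset.union_comm]
    congr 1
    · apply Finset.image_congr
      intro p hp
      have hp' := Nat.mem_primeFactors.1 hp
      have : ¬ p ∣ a := fun h => Nat.Prime.one_lt hp'.1 |>.ne' (Nat.dvd_one.1 (hc ▸ Nat.dvd_gcd h hp'.2.1))
      simp [Nat.factorization_mul ha0 hb0, Nat.factorization_eq_zero_of_not_dvd this]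
    · apply Finset.image_congr
      intro p hp
      have hp' := Nat.mem_primeFactors.1 hp
      have : ¬ p ∣ b := fun h => Nat.Prime.one_lt hp'.1 |>.ne' (Nat.dvd_one.1 (hc ▸ Nat.dvd_gcd hp'.2.1 h))
      simp [Nat.factorization_mul ha0 hb0, Nat.factorization_eq_zero_of_not_dvd this]
  unfold LS
  rw [hS]
  apply sort_union_lt
  intro x hx y hy
  obtain ⟨p, hp, rfl⟩ := Finset.mem_image.1 hx
  obtain ⟨q, hq, rfl⟩ := Finset.mem_image.1 hy
  rw [Nat.mem_primeFactors] at hp hq
  rw [Prod.Lex.toLex_lt_toLex]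
  exact Or.inl (h p q hp.1 hq.1 hp.2.1 hq.2.1)

theorem CS_main {a b : ℕ} (ha : 1 < a) (hb : 1 < b) (hc : a.Coprime b)
    (h : ∀ p q : ℕ, p.Prime → q.Prime → p ∣ b → q ∣ a → b.factorization p < a.factorization q) :
    CS (LS (a ^ b * b)) + CS (LS a) = CS (LS (a * b)) + CS (LS (a ^ b)) + 1 := by
  have ha0 : a ≠ 0 := by omega
  have hb0 : b ≠ 0 := by omega
  have hab : 1 < a ^ b := Nat.one_lt_pow hb0 ha
  have h1 := LS_mul ha hb hc h
  have h2 := LS_mul hab hb (hc.pow_left b) (by
    intro p q hp hq hpb hqa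
    have hqa' : q ∣ a := hq.dvd_of_dvd_pow hqa
    have h3 := h p q hp hq hpb hqa'
    rw [Nat.factorization_pow, Finsupp.smul_apply, smul_eq_mul]
    nlinarith [Nat.zero_le (a.factorization q)])
  have hLa := LS_ne ha
  have hLb := LS_ne hb
  have hLab := LS_ne hab
  rw [h1, h2, CS_append _ _ hLb hLab, CS_append _ _ hLb hLa]
  have h4 : (LS (a ^ b)).head hLab = gm b ((LS a).head hLa) := by
    simp only [LS_pow (a := a) (b := b) (by omega), List.head_map]
  obtain ⟨x1, x2⟩ := mem_LS (List.getLast_mem hLb)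
  obtain ⟨y1, y2⟩ := mem_LS (List.head_mem hLa)
  set x := (LS b).getLast hLb
  set y := (LS a).head hLa
  rw [Nat.mem_primeFactors] at x1 y1
  have h5 : 0 < b.factorization (ofLex x).2 := Nat.Prime.factorization_pos_of_dvd x1.1 hb0 x1.2.1
  have h6 : a.factorization (ofLex y).2 ≠ 0 := (Nat.Prime.factorization_pos_of_dvd y1.1 ha0 y1.2.1).ne'
  have h7 : fl x (gm b y) = fl x y + 1 := by
    unfold fl gm
    simp only [ofLex_toLex]
    rw [y2, x2, Nat.factorization_mul hb0 h6, Finsupp.add_apply, Nat.add_div_left _ h5]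
  rw [h4, h7]
  ring

end Q16.XP
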