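import Mathlib
import Pool.Agent.Q16.XP.Stm
import Pool.Agent.Q208.XP_B1
set_option autoImplicit false

namespace Q16.XP

def c6 (n : ℕ) : ℕ := if Nat.log n.minFac (ex n) < 2 * (ex n).factorization n.minFac then 1 else 0

theorem two_mul_le (t : ℕ) : 2 * t ≤ 2 ^ t := by
  induction t with
  | zero => simp
  | succ n ih =>
    rcases Nat.eq_zero_or_pos n with rfl | hn
    · norm_num
    · rw [pow_succ]; omega

theorem small {p a b : ℕ} (hp : p.Prime) (h1 : 1 < a) (h2 : 1 < b) (ha : a.minFac = p) (hb : b.minFac = p)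
    (h : b * ex a < p ^ (2 * ex b)) : c6 (a ^ b) ≠ c6 (a ^ b * b) := by
  have ha0 : a ≠ 0 := by omega
  have hb0 : b ≠ 0 := by omega
  have hexa : ex a = a.factorization p := by unfold ex; rw [ha]
  have hexb : ex b = b.factorization p := by unfold ex; rw [hb]
  have h1' : 1 < a ^ b := Nat.one_lt_pow hb0 h1
  have hpow : (a ^ b).minFac = p := by rw [Nat.pow_minFac hb0, ha]
  have habb : (a ^ b * b).minFac = p := Pool.Agent.Q208.XP_B1.mf_mul hp hpow hb h1'
  have x2 : ex (a ^ b) = b * ex a := by
    rw [hexa]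
    unfold ex
    rw [hpow, Nat.factorization_pow, Finsupp.smul_apply, smul_eq_mul]
  have x3 : ex (a ^ b * b) = ex b + b * ex a := by
    rw [hexa, hexb]
    unfold ex
    rw [habb, Nat.factorization_mul (by omega) hb0, Finsupp.add_apply, Nat.factorization_pow,
      Finsupp.smul_apply, smul_eq_mul, add_comm]
  have pa : 0 < ex a := by
    rw [hexa]
    exact hp.factorization_pos_of_dvd ha0 (ha ▸ Nat.minFac_dvd a)
  have pb : 0 < ex b := by
    rw [hexb]
    exact hp.factorization_pos_of_dvd hb0 (hb ▸ Nat.minFac_dvd b)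
  have hv : (b * ex a).factorization p = ex b + (ex a).factorization p := by
    rw [Nat.factorization_mul hb0 (by omega), Finsupp.add_apply, hexb]
  have hba : b * ex a ≠ 0 := Nat.mul_ne_zero hb0 pa.ne'
  have e1 : c6 (a ^ b) = 1 := by
    unfold c6
    rw [hpow, x2, hv, if_pos]
    have := Nat.log_lt_of_lt_pow hba h
    omega
  have hTb : 2 * (ex b).factorization p ≤ ex b := by
    have h3 := two_mul_le ((ex b).factorization p)
    have h4 : 2 ^ (ex b).factorization p ≤ p ^ (ex b).factorization p :=
      Nat.pow_le_pow_left hp.two_le _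
    have h5 : p ^ (ex b).factorization p ≤ ex b := Nat.le_of_dvd pb (Nat.ordProj_dvd _ _)
    omega
  have hT : (ex b + b * ex a).factorization p ≤ (ex b).factorization p := by
    by_contra hcon
    push Not at hcon
    have h3 : p ^ ((ex b).factorization p + 1) ∣ ex b + b * ex a :=
      dvd_trans (pow_dvd_pow p (by omega)) (Nat.ordProj_dvd _ _)
    have h4 : p ^ ((ex b).factorization p + 1) ∣ b * ex a := by
      refine dvd_trans (pow_dvd_pow p ?_) (Nat.ordProj_dvd _ p)
      rw [hv]
      have : (ex b).factorization p < ex b := Nat.factorization_lt _ pb.ne'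
      omega
    have h5 : p ^ ((ex b).factorization p + 1) ∣ ex b := (Nat.dvd_add_left h4).1 h3
    have h6 := (hp.pow_dvd_iff_le_factorization pb.ne').1 h5
    omega
  have e2 : c6 (a ^ b * b) = 0 := by
    unfold c6
    rw [habb, x3, if_neg]
    have h3 : p ^ ex b ≤ b := by
      rw [hexb]
      exact Nat.le_of_dvd (by omega) (Nat.ordProj_dvd _ _)
    have h4 : b ≤ b * ex a := Nat.le_mul_of_pos_right b pa
    have h5 : ex b ≤ Nat.log p (ex b + b * ex a) :=
      Nat.le_log_of_pow_le hp.one_lt (by omega)
    omega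
  rw [e1, e2]
  norm_num

end Q16.XP
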