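import Mathlib
import Pool.Agent.Q16.XP.All
import Pool.Agent.Q16.XP.Expo
import Pool.Agent.Q16.XP.Small
import Pool.Agent.Q16.XP.Deep
set_option autoImplicit false

namespace Q16.XP

abbrev K2 := KK × Fin 2 × Fin 2 × Fin 2 × Fin 2 × Fin 2

def col2 (n : ℕ) : K2 :=
  (col n, ⟨CS (LS n) % 2, Nat.mod_lt _ (by norm_num)⟩,
    ⟨c6 n % 2, Nat.mod_lt _ (by norm_num)⟩, ⟨c8 n, Nat.mod_lt _ (by norm_num)⟩,
    ⟨c9 n % 2, Nat.mod_lt _ (by norm_num)⟩, ⟨c10 n, Nat.mod_lt _ (by norm_num)⟩)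

theorem col2_ext {m n : ℕ} (h : col2 m = col2 n) :
    col m = col n ∧ CS (LS m) % 2 = CS (LS n) % 2 ∧ c6 m % 2 = c6 n % 2 ∧ c8 m = c8 n ∧
      c9 m % 2 = c9 n % 2 ∧ c10 m = c10 n := by
  simp only [col2, Prod.mk.injEq] at h
  obtain ⟨h1, h2, h3, h4, h5, h6⟩ := h
  exact ⟨h1, Fin.mk.inj_iff.1 h2, Fin.mk.inj_iff.1 h3, Fin.mk.inj_iff.1 h4,
    Fin.mk.inj_iff.1 h5, Fin.mk.inj_iff.1 h6⟩

theorem mono_col {a b : ℕ} (h : MonoC col2 a b) : MonoC col a b :=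
  ⟨(col2_ext h.1).1, (col2_ext h.2.1).1, (col2_ext h.2.2.1).1, (col2_ext h.2.2.2).1⟩

theorem c6_le (n : ℕ) : c6 n < 2 := by unfold c6; split_ifs <;> omega
theorem c9_le (n : ℕ) : c9 n < 2 := by unfold c9; split_ifs <;> omega

theorem sep (a b : ℕ) (ha : 1 < a) (hb : 1 < b)
    (h : Sep b a ∨ Sep a b ∨ (a.Coprime b ∧ ∀ p q : ℕ, p.Prime → q.Prime → p ∣ b → q ∣ a →
      b.factorization p < a.factorization q)) : ¬ MonoC col2 a b := by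
  intro hm
  rcases h with h | h | h
  · exact pairs j_PA a b ha hb (Or.inl h) (mono_col hm)
  · exact pairs j_PA a b ha hb (Or.inr h) (mono_col hm)
  · have h0 := CS_main ha hb h.1 h.2
    have h2 := (col2_ext hm.2.1).2.1
    have h3 := (col2_ext hm.2.2.1).2.1
    have h4 := (col2_ext hm.2.2.2).2.1
    omega

theorem same (p a b : ℕ) (ha : 1 < a) (hb : 1 < b) (hpa : a.minFac = p) (hpb : b.minFac = p)
    (hm : MonoC col2 a b) :
    0 < T2 a ∧ p ^ T2 a ≤ ex b ∧ (T2 a).factorization p < T2 b ∧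
      T2 b < p ^ (Nat.log p (T2 a) + 2) ∧ p ^ (2 * ex b) ≤ b * ex a := by
  have hp : p.Prime := hpa ▸ Nat.minFac_prime (by omega)
  obtain ⟨g1, g2, g3, g4⟩ := hm
  have hm' : MonoC col a b := mono_col ⟨g1, g2, g3, g4⟩
  obtain ⟨u1, u2, u3, u4⟩ := hm'
  have G1 := col2_ext g1
  have G3 := col2_ext g3
  have G4 := col2_ext g4
  have a9 := c9_le a
  have b9 := c9_le b
  have p9 := c9_le (a ^ b)
  have p6 := c6_le (a ^ b)
  have q6 := c6_le (a ^ b * b)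
  have e9 : c9 b = c9 a := by have := G1.2.2.2.2.1; omega
  have e9' : c9 (a ^ b) = c9 a := by have := G3.2.2.2.2.1; omega
  have h9 : ¬ (T2 a = 0 ∨ T2 b ≤ (T2 a).factorization p) := fun h =>
    nine hp ha hb hpa hpb h G1.2.2.2.1 G3.2.2.2.1 e9 e9'
  push Not at h9
  have k1 : ¬ (ex b < p ^ T2 a) := by
    intro h
    apply pairs3 j_B1 p a b hp ha hb hpa hpb _ ⟨u1, u2, u3, u4⟩
    have : (ex a).factorization p = T2 a := by unfold T2; rw [hpa]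
    rw [this]
    exact h
  have k2 : ¬ (p ^ (Nat.log p (T2 a) + 2) ≤ T2 b) := fun h =>
    ten j_D1 j_B1 hp ha hb hpa hpb h9.1 h (col_ext u2).2.2.1 (col_ext u3).2.2.1 (col_ext u4).2.2.1
      (col_ext u1).2.2.2.1 (col_ext u3).2.2.2.1 (col_ext u4).2.2.2.1 G3.2.2.2.2.2
  have k3 : ¬ (b * ex a < p ^ (2 * ex b)) := by
    intro h
    apply small hp ha hb hpa hpb h
    have x3 := G3.2.2.1
    have x4 := G4.2.2.1
    omega
  exact ⟨Nat.pos_of_ne_zero h9.1, by omega, h9.2, by omega, by omega⟩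

theorem infinite2 (X : Set ℕ) (hX : X.Infinite) (hX1 : ∀ n ∈ X, 1 < n) :
    (∃ a ∈ X, ∃ b ∈ X, b < a ∧ ¬ MonoC col2 a b) ∧ (∃ a ∈ X, ∃ b ∈ X, a < b ∧ ¬ MonoC col2 a b) := by
  obtain ⟨⟨a, ha, b, hb, hab, h1⟩, ⟨a', ha', b', hb', hab', h2⟩⟩ := infinite j_PA j_B1 j_B2 j_B3 X hX hX1
  exact ⟨⟨a, ha, b, hb, hab, fun hm => h1 (mono_col hm)⟩, ⟨a', ha', b', hb', hab', fun hm => h2 (mono_col hm)⟩⟩

end Q16.XP
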