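import Mathlib
import Pool.Agent.Q16.XP.Stm
set_option autoImplicit false

namespace Q16.XP

/-- number of exponential gaps between consecutive nonzero digits in base p -/
def G3 (p l _d q : ℕ) : ℕ := if p ^ l ≤ q then 1 else 0

/-- JOB E6 (assume S_D1). Colour c n = min (DS p (G3 p) (ex n)) J with p = n.minFac, in Fin (J + 1). With al = ex a, be = ex b: ex (a^b * b) = b al + be,
the p-exponent of b al is be + (p-exponent of al), at least be, at least p^(log_p be), so S_D1 (x = be, y = b al, k = be) gives
DS (ex (a^b * b)) = DS be + 1 + DS (b al), bigger than DS be. And DS p (G3 p) n + 1 is at most the number of nonzero digits, at most the digit sum of n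
(strong induction over rd: n = p^t (d + p m), digit sum = d + digit sum of m; Nat.digits_base_pow_mul or similar), so DS be is smaller than J. -/
def S_E6 : Prop := ∀ J : ℕ, ∃ (k : ℕ) (c : ℕ → Fin k), ∀ p a b : ℕ, 1 < a → 1 < b → a.minFac = p → b.minFac = p →
  (Nat.digits p (ex b)).sum ≤ J → c b ≠ c (a ^ b * b)

end Q16.XP
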