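import Mathlib
import Pool.Agent.Q16.XP.Stm2
import Pool.Agent.Q16.XP.Deep
import Pool.Agent.Q16.XP.Main2
set_option autoImplicit false

namespace Q16.XP

def c11 (n : ℕ) : ℕ := DS n.minFac (G3 n.minFac) (T2 n) % 3
def c12 (n : ℕ) : ℕ := DS n.minFac (G3 n.minFac) (ex n) % 3

theorem eleven (hD : S_D1) {p a b : ℕ} (hp : p.Prime) (h1 : 1 < a) (h2 : 1 < b) (ha : a.minFac = p)
    (hb : b.minFac = p) (h0 : T2 a ≠ 0) (hx : T2 a < p ^ T2 b) (h : T2 b < p ^ Nat.log p (T2 a))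
    (n1 : c12 b = c12 a) (n2 : c12 (a ^ b) = c12 a) (n3 : c12 (a ^ b * b) = c12 a)
    (l1 : c11 (a ^ b) = c11 a) : False := by
  have F := facts hp h1 h2 ha hb
  have hTa : (ex a).factorization p = T2 a := by unfold T2; rw [ha]
  have hTb : (ex b).factorization p = T2 b := by unfold T2; rw [hb]
  have t1 : T2 (a ^ b) = ex b + T2 a := by
    unfold T2
    rw [F.pow, F.x2, F.hv, ha]
  have y1 := hD p hp (G3 p) (T2 a) (ex b) (T2 b) (by omega) F.pb (by rw [← hTb]; exact Nat.ordProj_dvd _ _) hx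
  have g1 : G3 p (Nat.log p (T2 a)) (T2 a / p ^ Nat.log p (T2 a)) ((ex b).factorization p) = 0 := by
    unfold G3
    rw [if_neg (by rw [hTb]; omega)]
  rw [g1] at y1
  have y2 := hD p hp (G3 p) (ex b) (b * ex a) (ex b) F.pb (Nat.mul_pos (by omega) F.pa)
    (dvd_trans (pow_dvd_pow p (by rw [F.hv]; omega)) (Nat.ordProj_dvd (b * ex a) p)) (Nat.lt_pow_self hp.one_lt)
  have g2 : G3 p (Nat.log p (ex b)) (ex b / p ^ Nat.log p (ex b)) ((b * ex a).factorization p) = 1 := by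
    unfold G3
    rw [if_pos]
    rw [F.hv]
    have := Nat.pow_log_le_self p F.pb.ne'
    omega
  rw [g2] at y2
  unfold c11 at l1
  rw [F.pow, t1, ha, show ex b + T2 a = T2 a + ex b by ring, y1] at l1
  unfold c12 at n1 n2 n3
  rw [ha, hb] at n1
  rw [F.mul, F.x3, ha, y2] at n3
  rw [F.pow, F.x2, ha] at n2
  omega

abbrev K3 := K2 × Fin 3 × Fin 3

def col3 (n : ℕ) : K3 :=
  (col2 n, ⟨c11 n, Nat.mod_lt _ (by norm_num)⟩, ⟨c12 n, Nat.mod_lt _ (by norm_num)⟩)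

theorem col3_ext {m n : ℕ} (h : col3 m = col3 n) : col2 m = col2 n ∧ c11 m = c11 n ∧ c12 m = c12 n := by
  simp only [col3, Prod.mk.injEq] at h
  obtain ⟨h1, h2, h3⟩ := h
  exact ⟨h1, Fin.mk.inj_iff.1 h2, Fin.mk.inj_iff.1 h3⟩

theorem mono_col2 {a b : ℕ} (h : MonoC col3 a b) : MonoC col2 a b :=
  ⟨(col3_ext h.1).1, (col3_ext h.2.1).1, (col3_ext h.2.2.1).1, (col3_ext h.2.2.2).1⟩

theorem same3 (p a b : ℕ) (ha : 1 < a) (hb : 1 < b) (hpa : a.minFac = p) (hpb : b.minFac = p)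
    (hm : MonoC col3 a b) :
    0 < T2 a ∧ p ^ T2 a ≤ ex b ∧ (T2 a).factorization p < T2 b ∧
      T2 b < p ^ (Nat.log p (T2 a) + 2) ∧ (p ^ T2 b ≤ T2 a ∨ p ^ Nat.log p (T2 a) ≤ T2 b) ∧
      p ^ (2 * ex b) ≤ b * ex a := by
  obtain ⟨r1, r2, r3, r4, r5⟩ := same p a b ha hb hpa hpb (mono_col2 hm)
  refine ⟨r1, r2, r3, r4, ?_, r5⟩
  by_contra hcon
  push Not at hcon
  obtain ⟨g1, g2, g3, g4⟩ := hm
  exact eleven j_D1 (hpa ▸ Nat.minFac_prime (by omega)) ha hb hpa hpb r1.ne' hcon.1 hcon.2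
    (col3_ext g1).2.2 (col3_ext g3).2.2 (col3_ext g4).2.2 (col3_ext g3).2.1

end Q16.XP
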