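import Mathlib
set_option autoImplicit false

namespace Q16.XP

/-- the number of prime factors of n smaller than p -/
def rk (n p : ℕ) : ℕ := (n.primeFactors.filter (· < p)).card

theorem rk_lt {n p q : ℕ} (hp : p ∈ n.primeFactors) (h : p < q) : rk n p < rk n q := by
  apply Finset.card_lt_card
  rw [Finset.ssubset_iff_of_subset]
  · exact ⟨p, Finset.mem_filter.2 ⟨hp, h⟩, by simp⟩
  · intro r hr
    rw [Finset.mem_filter] at hr ⊢
    exact ⟨hr.1, by omega⟩

theorem rk_inj {n p q : ℕ} (hp : p ∈ n.primeFactors) (hq : q ∈ n.primeFactors) (h : rk n p = rk n q) :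
    p = q := by
  rcases lt_trichotomy p q with h1 | h1 | h1
  · have := rk_lt hp h1; omega
  · exact h1
  · have := rk_lt hq h1; omega

open Classical in
/-- the prime factor of n of rank i -/
noncomputable def pr (n i : ℕ) : ℕ := if h : ∃ p ∈ n.primeFactors, rk n p = i then h.choose else 1

theorem pr_rk {n p : ℕ} (hp : p ∈ n.primeFactors) : pr n (rk n p) = p := by
  have h : ∃ q ∈ n.primeFactors, rk n q = rk n p := ⟨p, hp, rfl⟩
  unfold pr
  rw [dif_pos h]
  exact rk_inj h.choose_spec.1 hp h.choose_spec.2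

noncomputable def ka (n i j : ℕ) : ℕ :=
  (n.factorization (pr n j)).factorization (pr n i) / n.factorization (pr n i)

theorem ka_step {a b p q : ℕ} (ha : 1 < a) (hb : 1 < b) (hp : p.Prime) (hq : q.Prime)
    (hpb : p ∣ b) (hpa : ¬ p ∣ a) (hqa : q ∣ a) (hqb : ¬ q ∣ b) :
    ((a ^ b * b).factorization q).factorization p / (a ^ b * b).factorization p =
      ((a * b).factorization q).factorization p / (a * b).factorization p + 1 := by
  have ha0 : a ≠ 0 := by omega
  have hb0 : b ≠ 0 := by omega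
  have h1 : (a * b).factorization p = b.factorization p := by
    rw [Nat.factorization_mul ha0 hb0, Finsupp.add_apply, Nat.factorization_eq_zero_of_not_dvd hpa, zero_add]
  have h2 : (a ^ b * b).factorization p = b.factorization p := by
    rw [Nat.factorization_mul (pow_ne_zero _ ha0) hb0, Finsupp.add_apply, Nat.factorization_pow,
      Finsupp.smul_apply, Nat.factorization_eq_zero_of_not_dvd hpa, smul_zero, zero_add]
  have h3 : (a * b).factorization q = a.factorization q := by
    rw [Nat.factorization_mul ha0 hb0, Finsupp.add_apply, Nat.factorization_eq_zero_of_not_dvd hqb, add_zero]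
  have h4 : (a ^ b * b).factorization q = b * a.factorization q := by
    rw [Nat.factorization_mul (pow_ne_zero _ ha0) hb0, Finsupp.add_apply, Nat.factorization_pow,
      Finsupp.smul_apply, Nat.factorization_eq_zero_of_not_dvd hqb, add_zero, smul_eq_mul]
  have h5 : a.factorization q ≠ 0 := (Nat.Prime.factorization_pos_of_dvd hq ha0 hqa).ne'
  have h6 : 0 < b.factorization p := Nat.Prime.factorization_pos_of_dvd hp hb0 hpb
  rw [h1, h2, h3, h4, Nat.factorization_mul hb0 h5, Finsupp.add_apply, Nat.add_div_left _ h6]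

theorem pf_mul {a b : ℕ} (ha : 1 < a) (hb : 1 < b) :
    (a ^ b * b).primeFactors = (a * b).primeFactors := by
  rw [Nat.primeFactors_mul (pow_ne_zero _ (by omega)) (by omega), Nat.primeFactors_mul (by omega) (by omega),
    Nat.primeFactors_pow _ (by omega)]

theorem first (J : ℕ) : ∃ (k : ℕ) (c : ℕ → Fin k), ∀ a b p q : ℕ, 1 < a → 1 < b → p.Prime → q.Prime →
    p ∣ b → ¬ p ∣ a → q ∣ a → ¬ q ∣ b → rk (a * b) p < J → rk (a * b) q < J →
    c (a * b) ≠ c (a ^ b * b) := by
  classical
  have e := Fintype.equivFin (Fin J → Fin J → Fin 2)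
  refine ⟨Fintype.card (Fin J → Fin J → Fin 2),
    fun n => e (fun i j => ⟨ka n i j % 2, Nat.mod_lt _ (by norm_num)⟩), ?_⟩
  intro a b p q ha hb hp hq hpb hpa hqa hqb hip hiq h
  have ha0 : a ≠ 0 := by omega
  have hb0 : b ≠ 0 := by omega
  have hab : a * b ≠ 0 := Nat.mul_ne_zero ha0 hb0
  have h1 := congrFun (congrFun (e.injective h) ⟨rk (a * b) p, hip⟩) ⟨rk (a * b) q, hiq⟩
  have hpm : p ∈ (a * b).primeFactors := Nat.mem_primeFactors.2 ⟨hp, Dvd.dvd.mul_left hpb a, hab⟩
  have hqm : q ∈ (a * b).primeFactors := Nat.mem_primeFactors.2 ⟨hq, Dvd.dvd.mul_right hqa b, hab⟩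
  have e1 := pr_rk hpm
  have e2 := pr_rk hqm
  have e3 : pr (a ^ b * b) (rk (a * b) p) = p := by
    have h3 : rk (a * b) p = rk (a ^ b * b) p := by unfold rk; rw [pf_mul ha hb]
    rw [h3]
    exact pr_rk (by rw [pf_mul ha hb]; exact hpm)
  have e4 : pr (a ^ b * b) (rk (a * b) q) = q := by
    have h3 : rk (a * b) q = rk (a ^ b * b) q := by unfold rk; rw [pf_mul ha hb]
    rw [h3]
    exact pr_rk (by rw [pf_mul ha hb]; exact hqm)
  have h2 := Fin.mk.inj_iff.1 h1
  simp only [ka, e1, e2, e3, e4] at h2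
  rw [ka_step ha hb hp hq hpb hpa hqa hqb] at h2
  omega

end Q16.XP
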