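import Mathlib
import Pool.Agent.Q16.XP.Stm
set_option autoImplicit false

namespace Q16.XP

abbrev KK := Fin 2 × Fin 2 × Fin 3 × Fin 2 × Fin 2 × Fin 2 × Fin 2

def col (n : ℕ) : KK :=
  (⟨PS F1 n % 2, Nat.mod_lt _ (by norm_num)⟩, ⟨PS F2 n % 2, Nat.mod_lt _ (by norm_num)⟩,
    ⟨c1 n, Nat.mod_lt _ (by norm_num)⟩, ⟨c2 n, Nat.mod_lt _ (by norm_num)⟩,
    ⟨c3 n, Nat.mod_lt _ (by norm_num)⟩, ⟨c4 n, Nat.mod_lt _ (by norm_num)⟩,
    ⟨c5 n, Nat.mod_lt _ (by norm_num)⟩)

/-- a, b, ab, a^b, a^b b have the same colour -/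
def MonoC {K : Type} (c : ℕ → K) (a b : ℕ) : Prop :=
  c b = c a ∧ c (a * b) = c a ∧ c (a ^ b) = c a ∧ c (a ^ b * b) = c a

theorem col_ext {m n : ℕ} (h : col m = col n) :
    PS F1 m % 2 = PS F1 n % 2 ∧ PS F2 m % 2 = PS F2 n % 2 ∧ c1 m = c1 n ∧ c2 m = c2 n ∧ c3 m = c3 n ∧
      c4 m = c4 n ∧ c5 m = c5 n := by
  simp only [col, Prod.mk.injEq] at h
  obtain ⟨h1, h2, h3, h4, h5, h6, h7⟩ := h
  exact ⟨Fin.mk.inj_iff.1 h1, Fin.mk.inj_iff.1 h2, Fin.mk.inj_iff.1 h3, Fin.mk.inj_iff.1 h4,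
    Fin.mk.inj_iff.1 h5, Fin.mk.inj_iff.1 h6, Fin.mk.inj_iff.1 h7⟩

theorem pairs (hPA : S_PA) (a b : ℕ) (ha : 1 < a) (hb : 1 < b) (h : Sep b a ∨ Sep a b) :
    ¬ MonoC col a b := by
  rintro ⟨-, h2, h3, h4⟩
  obtain ⟨x2, y2, -⟩ := col_ext h2
  obtain ⟨x3, y3, -⟩ := col_ext h3
  obtain ⟨x4, y4, -⟩ := col_ext h4
  rcases h with h | h
  · have := hPA.1 a b ha hb h
    omega
  · have := hPA.2 a b ha hb h
    omega

theorem pairs3 (hB1 : S_B1) (p a b : ℕ) (hp : p.Prime) (ha : 1 < a) (hb : 1 < b) (hpa : a.minFac = p)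
    (hpb : b.minFac = p) (h : ex b < p ^ (ex a).factorization p) : ¬ MonoC col a b := by
  rintro ⟨-, h2, h3, h4⟩
  exact hB1 p a b hp ha hb hpa hpb h ⟨(col_ext h2).2.2.1, (col_ext h3).2.2.1, (col_ext h4).2.2.1⟩

theorem pairs4 (hB2 : S_B2) (p a b : ℕ) (hp : p.Prime) (ha : 1 < a) (hb : 1 < b) (hpa : a.minFac = p)
    (hpb : b.minFac = p) (h : p ^ (Nat.log p (ex a) + 2) ≤ (ex b).factorization p) : ¬ MonoC col a b := by
  rintro ⟨h1, h2, h3, h4⟩
  exact hB2 p a b hp ha hb hpa hpb h ⟨(col_ext h1).2.2.2.1, (col_ext h2).2.2.2.1, (col_ext h3).2.2.2.1,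
    (col_ext h4).2.2.2.1⟩

theorem pairs5 (hB3 : S_B3) (p a b : ℕ) (hp : p.Prime) (ha : 1 < a) (hb : 1 < b) (hpa : a.minFac = p)
    (hpb : b.minFac = p) (h : (ex a).factorization p = (ex b).factorization p)
    (h' : ex a / p ^ (ex a).factorization p % p ^ 2 = ex b / p ^ (ex b).factorization p % p ^ 2) :
    ¬ MonoC col a b := by
  rintro ⟨-, h2, -, -⟩
  have := col_ext h2
  exact hB3 p a b hp ha hb hpa hpb h h' ⟨this.2.2.2.2.1, this.2.2.2.2.2.1, this.2.2.2.2.2.2⟩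

theorem ex_lt (n : ℕ) (hn : 1 < n) : ex n < n := Nat.factorization_lt _ (by omega)

theorem sep_of_lt {b a : ℕ} (hb : 0 < b) (h : b < a.minFac) : Sep b a := by
  intro p q hp hq hpb hqa
  have h1 := Nat.le_of_dvd hb hpb
  have h2 := Nat.minFac_le_of_dvd hq.two_le hqa
  omega

/-- in an infinite set two members for which the pair in the given order is not monochromatic -/
theorem infinite (hPA : S_PA) (hB1 : S_B1) (hB2 : S_B2) (hB3 : S_B3) (X : Set ℕ) (hX : X.Infinite)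
    (hX1 : ∀ n ∈ X, 1 < n) :
    (∃ a ∈ X, ∃ b ∈ X, b < a ∧ ¬ MonoC col a b) ∧ (∃ a ∈ X, ∃ b ∈ X, a < b ∧ ¬ MonoC col a b) := by
  by_cases hA : ∀ B, ∃ n ∈ X, B < n.minFac
  · obtain ⟨m, hm⟩ := hX.nonempty
    obtain ⟨n, hn, hmn⟩ := hA m
    have h0 := hX1 m hm
    have h1 := hX1 n hn
    have h2 : n.minFac ≤ n := Nat.minFac_le (by omega)
    exact ⟨⟨n, hn, m, hm, by omega, pairs hPA n m h1 h0 (Or.inl (sep_of_lt (by omega) hmn))⟩,
      ⟨m, hm, n, hn, by omega, pairs hPA m n h0 h1 (Or.inr (sep_of_lt (by omega) hmn))⟩⟩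
  · push Not at hA
    obtain ⟨B, hB⟩ := hA
    obtain ⟨p, hp⟩ : ∃ p, {n ∈ X | n.minFac = p}.Infinite := by
      by_contra hcon
      push Not at hcon
      apply hX
      have : X ⊆ ⋃ p ∈ Finset.range (B + 1), {n ∈ X | n.minFac = p} := by
        intro n hn
        simp only [Set.mem_iUnion, Finset.mem_range, Set.mem_ofPred_eq]
        exact ⟨n.minFac, by have := hB n hn; omega, hn, rfl⟩
      refine Set.Finite.subset (Set.Finite.biUnion (Finset.finite_toSet _) ?_) this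
      intro p _
      exact hcon p
    set Y : Set ℕ := {n ∈ X | n.minFac = p} with hY
    have hYX : ∀ n ∈ Y, n ∈ X ∧ n.minFac = p := fun n hn => hn
    have hpp : p.Prime := by
      obtain ⟨n, hn⟩ := hp.nonempty
      obtain ⟨h1, h2⟩ := hYX n hn
      rw [← h2]
      exact Nat.minFac_prime (by have := hX1 n h1; omega)
    by_cases hT : ∀ M, ∃ n ∈ Y, M < (ex n).factorization p
    · have hex : ∀ n ∈ Y, 0 < ex n := by
        intro n hn
        obtain ⟨h1, h2⟩ := hYX n hn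
        have := hX1 n h1
        unfold ex
        exact Nat.Prime.factorization_pos_of_dvd (Nat.minFac_prime (by omega)) (by omega)
          (Nat.minFac_dvd n)
      have hTl : ∀ n ∈ Y, (ex n).factorization p < n := by
        intro n hn
        have h1 : (ex n).factorization p < ex n := Nat.factorization_lt _ (hex n hn).ne'
        have h2 := ex_lt n (hX1 n (hYX n hn).1)
        omega
      constructor
      · obtain ⟨b, hb⟩ := hp.nonempty
        obtain ⟨a, ha, hab⟩ := hT b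
        have h1 := hTl a ha
        refine ⟨a, (hYX a ha).1, b, (hYX b hb).1, by omega,
          pairs3 hB1 p a b hpp (hX1 a (hYX a ha).1) (hX1 b (hYX b hb).1) (hYX a ha).2 (hYX b hb).2 ?_⟩
        have h2 := ex_lt b (hX1 b (hYX b hb).1)
        have h3 : (ex a).factorization p < p ^ (ex a).factorization p := Nat.lt_pow_self hpp.one_lt
        omega
      · obtain ⟨a, ha⟩ := hp.nonempty
        obtain ⟨b, hb, hab⟩ := hT (max a (p ^ (Nat.log p (ex a) + 2)))
        have h1 := hTl b hb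
        have h2 := le_max_left a (p ^ (Nat.log p (ex a) + 2))
        have h3 := le_max_right a (p ^ (Nat.log p (ex a) + 2))
        exact ⟨a, (hYX a ha).1, b, (hYX b hb).1, by omega,
          pairs4 hB2 p a b hpp (hX1 a (hYX a ha).1) (hX1 b (hYX b hb).1) (hYX a ha).2 (hYX b hb).2
            (by omega)⟩
    · push Not at hT
      obtain ⟨M, hM⟩ := hT
      obtain ⟨u, hu⟩ : ∃ u : ℕ × ℕ, {n ∈ Y | ((ex n).factorization p,
          ex n / p ^ (ex n).factorization p % p ^ 2) = u}.Infinite := by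
        by_contra hcon
        push Not at hcon
        apply hp
        have : Y ⊆ ⋃ u ∈ (Finset.range (M + 1) ×ˢ Finset.range (p ^ 2)), {n ∈ Y |
            ((ex n).factorization p, ex n / p ^ (ex n).factorization p % p ^ 2) = u} := by
          intro n hn
          simp only [Set.mem_iUnion, Finset.mem_product, Finset.mem_range, Set.mem_ofPred_eq]
          refine ⟨((ex n).factorization p, ex n / p ^ (ex n).factorization p % p ^ 2), ⟨?_, ?_⟩, hn, rfl⟩
          · have := hM n hn; simp only; omega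
          · exact Nat.mod_lt _ (pow_pos hpp.pos 2)
        refine Set.Finite.subset (Set.Finite.biUnion (Finset.finite_toSet _) ?_) this
        intro u _
        exact hcon u
      obtain ⟨m, hm⟩ := hu.nonempty
      obtain ⟨n, hn, hmn⟩ := hu.exists_gt m
      obtain ⟨hmY, hm2⟩ := hm
      obtain ⟨hnY, hn2⟩ := hn
      have h12 := hm2.trans hn2.symm
      rw [Prod.mk.injEq] at h12
      exact ⟨⟨n, (hYX n hnY).1, m, (hYX m hmY).1, hmn, pairs5 hB3 p n m hpp (hX1 n (hYX n hnY).1)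
          (hX1 m (hYX m hmY).1) (hYX n hnY).2 (hYX m hmY).2 h12.1.symm h12.2.symm⟩,
        ⟨m, (hYX m hmY).1, n, (hYX n hnY).1, hmn, pairs5 hB3 p m n hpp (hX1 m (hYX m hmY).1)
          (hX1 n (hYX n hnY).1) (hYX m hmY).2 (hYX n hnY).2 h12.1 h12.2⟩⟩

end Q16.XP
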